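import Pool.Agent.H948.HS.Stm

/-!
# Task LAM of project HS (helper921 for helper948): the connective constant
-/

set_option autoImplicit false

namespace Pool.Agent.H921.HS

open MeasureTheory ProbabilityTheory Set Filter Metric
open scoped ENNReal NNReal Topology RealInnerProductSpace
open Pool.Agent.H948.HS

variable {m : ℕ}

theorem Z_le_one (c : ℝ) (n : ℕ) : Z m c n ≤ 1 := by
  unfold Z
  exact measureReal_le_one

theorem Z_nonneg (c : ℝ) (n : ℕ) : 0 ≤ Z m c n := measureReal_nonneg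

theorem Z_zero (c : ℝ) : Z m c 0 = 1 := by
  unfold Z
  have h : Saw m c 0 = univ := by
    ext u
    simp only [Saw, mem_setOf_eq, mem_univ, iff_true]
    intro i j hij hj
    omega
  rw [h]
  exact probReal_univ

theorem Z_mul (hB : S_BLOCK) (c : ℝ) (a b : ℕ) : Z m c (a + b) ≤ Z m c a * Z m c b := by
  have h := hB m 2 (fun i => if i = 0 then 0 else a) (fun i => if i = 0 then a else b)
    (fun i => if i = 0 then Saw m c a else Saw m c b) ?_ ?_
  · have h2 : ∏ i ∈ Finset.range 2, (Pm m).real (if i = 0 then Saw m c a else Saw m c b) =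
        Z m c a * Z m c b := by
      rw [Finset.prod_range_succ, Finset.prod_range_one]
      simp [Z]
    have h' : (Pm m).real {u | ∀ i < 2, shift (if i = 0 then 0 else a) u ∈
        (if i = 0 then Saw m c a else Saw m c b)} = Z m c a * Z m c b := by
      rw [← h2]
      exact h
    rw [← h']
    unfold Z
    apply measureReal_mono
    · intro u hu i hi
      have hi' : i = 0 ∨ i = 1 := by omega
      rcases hi' with rfl | rfl
      · simp only [if_true]
        rw [shift_zero]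
        exact saw_mono hu (by omega)
      · simp only [one_ne_zero, if_false]
        exact saw_shift hu le_rfl
    · exact measure_ne_top _ _
  · intro i hi
    have hi' : i = 0 ∨ i = 1 := by omega
    rcases hi' with rfl | rfl
    · exact ⟨meas_Saw c a, loc_Saw c a⟩
    · exact ⟨meas_Saw c b, loc_Saw c b⟩
  · intro i hi
    have hi' : i = 0 := by omega
    subst hi'
    simp

/-- the first step has height more than `c` -/
def Up (m : ℕ) (c : ℝ) : Set (Om m) := {u | c < ht u 0 1}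

theorem meas_Up (c : ℝ) : MeasurableSet (Up m c) :=
  measurableSet_lt measurable_const (measurable_ht 0 1)

theorem loc_Up (c : ℝ) : Loc 1 (Up m c) := by
  intro u v h
  have key : ht u 0 1 = ht v 0 1 := ht_congr h le_rfl
  constructor
  · intro hu
    have h1 : c < ht u 0 1 := hu
    rw [key] at h1
    exact h1
  · intro hu
    have h1 : c < ht v 0 1 := hu
    rw [← key] at h1
    exact h1

theorem real_Up (c : ℝ) : (Pm m).real (Up m c) = pc m c := by
  have h1 : Up m c = (fun u : Om m => u 0) ⁻¹' {x : Sp m | c < (x : E m) 0} := by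
    ext u
    simp [Up, ht, S]
  have h2 : MeasurableSet {x : Sp m | c < (x : E m) 0} :=
    measurableSet_lt measurable_const ((measurable_coord 0).comp measurable_subtype_coe)
  have h3 := measurePreserving_eval_infinitePi (fun _ : ℕ => sig m) 0
  unfold pc
  rw [h1]
  exact h3.measureReal_preimage h2.nullMeasurableSet

theorem up_saw {c : ℝ} (hc : 0 < c) {n : ℕ} {u : Om m} (h : ∀ i < n, shift i u ∈ Up m c) :
    u ∈ Saw m c n := by
  have h1 : ∀ k < n, c < ht u k (k + 1) := by
    intro k hk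
    have h2 : c < ht (shift k u) 0 1 := h k hk
    rw [ht_shift] at h2
    exact h2
  have h3 : ∀ i j, i < j → j ≤ n → c < ht u i j := by
    intro i j hij
    induction j, hij using Nat.le_induction with
    | base =>
      intro hj
      exact h1 i (by omega)
    | succ j hij ih =>
      intro hj
      have h4 := ih (by omega)
      have h5 := h1 j (by omega)
      rw [← ht_add u (show i ≤ j by omega) (Nat.le_succ j)]
      have h6 : ht u j j.succ = ht u j (j + 1) := rfl
      rw [h6]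
      linarith
  intro i j hij hj
  exact (h3 i j hij hj).trans_le (ht_le_norm u i j)

theorem pc_pow_le (hB : S_BLOCK) {c : ℝ} (hc : 0 < c) (n : ℕ) : pc m c ^ n ≤ Z m c n := by
  have h := hB m n (fun i => i) (fun _ => 1) (fun _ => Up m c)
    (fun i _ => ⟨meas_Up c, loc_Up c⟩) (fun i _ => le_rfl)
  rw [Finset.prod_const, Finset.card_range, real_Up] at h
  rw [← h]
  unfold Z
  apply measureReal_mono
  · intro u hu
    exact up_saw hc hu
  · exact measure_ne_top _ _

theorem pc_pos (hS : S_SIG) {c : ℝ} (hc : c < 1) : 0 < pc m c := by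
  have h := hS.1 m (e0 m) (1 - c) norm_e0 (by linarith)
  have e : {x : Sp m | 1 - (1 - c) < ⟪e0 m, (x : E m)⟫} = {x : Sp m | c < (x : E m) 0} := by
    ext x
    simp [e0, EuclideanSpace.inner_single_left]
  rw [e] at h
  exact h

theorem Z_blocks (hB : S_BLOCK) (c : ℝ) (K r q : ℕ) :
    Z m c (q * K + r) ≤ Z m c K ^ q := by
  induction q with
  | zero =>
    rw [pow_zero]
    exact Z_le_one c _
  | succ q ih =>
    have e : (q + 1) * K + r = K + (q * K + r) := by ring
    rw [e, pow_succ]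
    calc Z m c (K + (q * K + r)) ≤ Z m c K * Z m c (q * K + r) := Z_mul hB c _ _
      _ ≤ Z m c K * Z m c K ^ q := mul_le_mul_of_nonneg_left ih (Z_nonneg c K)
      _ = Z m c K ^ q * Z m c K := by ring

theorem s_lam (hB : S_BLOCK) (hS : S_SIG) : S_LAM := by
  intro m c hc hc1
  have hpc : 0 < pc m c := pc_pos hS hc1
  have hZpos : ∀ n, 0 < Z m c n := fun n => (pow_pos hpc n).trans_le (pc_pow_le hB hc n)
  have hbdd : BddBelow (range fun n : ℕ => Z m c (n + 1) ^ (1 / ((n : ℝ) + 1))) :=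
    ⟨0, by rintro _ ⟨n, rfl⟩; exact Real.rpow_nonneg (Z_nonneg c _) _⟩
  have hlow : ∀ n : ℕ, pc m c ≤ Z m c (n + 1) ^ (1 / ((n : ℝ) + 1)) := by
    intro n
    have h1 := pc_pow_le (m := m) hB hc (n + 1)
    have hn : (0 : ℝ) < (n : ℝ) + 1 := by positivity
    have h2 : pc m c = (pc m c ^ (n + 1)) ^ (1 / ((n : ℝ) + 1)) := by
      rw [← Real.rpow_natCast, ← Real.rpow_mul hpc.le]
      have e : ((n + 1 : ℕ) : ℝ) * (1 / ((n : ℝ) + 1)) = 1 := by
        push_cast
        field_simp
      rw [e, Real.rpow_one]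
    rw [h2]
    exact Real.rpow_le_rpow (pow_pos hpc _).le h1 (by positivity)
  have hlampos : 0 < lam m c := hpc.trans_le (le_ciInf hlow)
  have hle : ∀ n : ℕ, lam m c ≤ Z m c (n + 1) ^ (1 / ((n : ℝ) + 1)) := fun n =>
    ciInf_le hbdd n
  have hlam1 : lam m c ≤ 1 := by
    have h1 := hle 0
    have h2 : Z m c (0 + 1) ^ (1 / (((0 : ℕ) : ℝ) + 1)) ≤ 1 :=
      Real.rpow_le_one (Z_nonneg c _) (Z_le_one c _) (by positivity)
    exact h1.trans h2
  have hpow : ∀ n, lam m c ^ n ≤ Z m c n := by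
    intro n
    cases n with
    | zero => rw [pow_zero, Z_zero]
    | succ n =>
      have hn : (0 : ℝ) < (n : ℝ) + 1 := by positivity
      have h1 := pow_le_pow_left₀ hlampos.le (hle n) (n + 1)
      have h2 : (Z m c (n + 1) ^ (1 / ((n : ℝ) + 1))) ^ (n + 1) = Z m c (n + 1) := by
        rw [← Real.rpow_natCast, ← Real.rpow_mul (Z_nonneg c _)]
        have e : (1 / ((n : ℝ) + 1)) * ((n + 1 : ℕ) : ℝ) = 1 := by
          push_cast
          field_simp
        rw [e, Real.rpow_one]
      rw [h2] at h1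
      exact h1
  refine ⟨hlampos, hlam1, hZpos, hpow, Z_mul hB c, ?_⟩
  intro ρ hρ
  have hρ0 : 0 < ρ := hlampos.trans hρ
  obtain ⟨k, hk⟩ := exists_lt_of_ciInf_lt (show (⨅ n : ℕ, Z m c (n + 1) ^ (1 / ((n : ℝ) + 1))) < ρ
    from hρ)
  have hZk : Z m c (k + 1) ≤ ρ ^ (k + 1) := by
    have h1 := pow_le_pow_left₀ (Real.rpow_nonneg (Z_nonneg c _) _) hk.le (k + 1)
    have h2 : (Z m c (k + 1) ^ (1 / ((k : ℝ) + 1))) ^ (k + 1) = Z m c (k + 1) := by
      rw [← Real.rpow_natCast, ← Real.rpow_mul (Z_nonneg c _)]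
      have hn : (0 : ℝ) < (k : ℝ) + 1 := by positivity
      have e : (1 / ((k : ℝ) + 1)) * ((k + 1 : ℕ) : ℝ) = 1 := by
        push_cast
        field_simp
      rw [e, Real.rpow_one]
    rw [h2] at h1
    exact h1
  refine ⟨max 1 (1 / ρ ^ (k + 1)), le_max_left _ _, fun n => ?_⟩
  have hD0 : 0 < max 1 (1 / ρ ^ (k + 1)) := lt_max_of_lt_left one_pos
  set q := n / (k + 1) with hq
  set r := n % (k + 1) with hr
  have hn : n = q * (k + 1) + r := by
    rw [hq, hr, mul_comm]
    exact (Nat.div_add_mod n (k + 1)).symm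
  have hrk : r ≤ k + 1 := (Nat.mod_lt n (Nat.succ_pos k)).le
  have h1 : Z m c n ≤ (ρ ^ (k + 1)) ^ q := by
    rw [hn]
    exact (Z_blocks hB c (k + 1) r q).trans (pow_le_pow_left₀ (Z_nonneg c _) hZk q)
  have h2 : 1 ≤ max 1 (1 / ρ ^ (k + 1)) * ρ ^ r := by
    rcases le_total 1 ρ with h | h
    · calc (1 : ℝ) = 1 * 1 := (one_mul 1).symm
        _ ≤ max 1 (1 / ρ ^ (k + 1)) * ρ ^ r :=
          mul_le_mul (le_max_left _ _) (one_le_pow₀ h) zero_le_one hD0.le
    · have h3 : ρ ^ (k + 1) ≤ ρ ^ r := pow_le_pow_of_le_one hρ0.le h hrk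
      have h4 : 1 / ρ ^ (k + 1) * ρ ^ (k + 1) = 1 := by
        field_simp
      calc (1 : ℝ) = 1 / ρ ^ (k + 1) * ρ ^ (k + 1) := h4.symm
        _ ≤ max 1 (1 / ρ ^ (k + 1)) * ρ ^ r :=
          mul_le_mul (le_max_right _ _) h3 (pow_pos hρ0 _).le hD0.le
  have h5 : ρ ^ n = (ρ ^ (k + 1)) ^ q * ρ ^ r := by
    conv_lhs => rw [hn]
    rw [pow_add, ← pow_mul, mul_comm q (k + 1)]
  rw [h5]
  calc Z m c n ≤ (ρ ^ (k + 1)) ^ q := h1
    _ = (ρ ^ (k + 1)) ^ q * 1 := (mul_one _).symm
    _ ≤ (ρ ^ (k + 1)) ^ q * (max 1 (1 / ρ ^ (k + 1)) * ρ ^ r) :=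
      mul_le_mul_of_nonneg_left h2 (pow_pos (pow_pos hρ0 _) _).le
    _ = max 1 (1 / ρ ^ (k + 1)) * ((ρ ^ (k + 1)) ^ q * ρ ^ r) := by ring

end Pool.Agent.H921.HS
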